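import Mathlib
import Pool.Agent.Q288.OM.Basic
import Pool.Agent.Q288.OM.Real

/-!
# MP_6e3918_co: an oriented extension need not exist for a modular cut inside the modular cut of an
oriented extension

The oriented matroid is the alternating one of rank 4 on 7 elements, realized by the vectors
`(1, t, t², t³)`, `t = 0, …, 6`.  The extension is by an element parallel to `0`; its modular cut
`𝓜` consists of the flats containing `0`.  The subset `𝓜' = {012, 034, 056, E}` is a modular cut,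
but no oriented extension corresponds to it.
-/

set_option autoImplicit false

open Set Pool.Agent.Q288.OM

namespace Pool.Agent.Results.MP_6e3918_co.SubModularCut

/-- `O'`, an oriented matroid on `α ∪ {p}` (`p = none`), is a single-element extension of `O`: its
deletion of `p` equals `O`, i.e. the signed circuits of `O` are those of `O'` that avoid `p`. -/
def IsExtension {α : Type*} (O' : OMat (Option α)) (O : OMat α) : Prop :=
  ∀ X : α → SignType, X ∈ O.circuits ↔ (fun o : Option α => o.elim 0 X) ∈ O'.circuits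

/-- `𝓜` is a modular cut of the matroid `M`. -/
structure IsModularCut {α : Type*} (M : Matroid α) (𝓜 : Set (Set α)) : Prop where
  flat : ∀ F ∈ 𝓜, M.IsFlat F
  up : ∀ F ∈ 𝓜, ∀ G, M.IsFlat G → F ⊆ G → G ∈ 𝓜
  inter : ∀ F ∈ 𝓜, ∀ G ∈ 𝓜, M.eRk F + M.eRk G = M.eRk (F ∪ G) + M.eRk (F ∩ G) → F ∩ G ∈ 𝓜

/-- The extension `O'` of `O` corresponds to the set `𝓜` of flats: `𝓜` is the set of the flats `F`
of the underlying matroid of `O` whose closure in the underlying matroid of `O'` contains the new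
element `none`. -/
def Corresponds {α : Type*} [Finite α] (O' : OMat (Option α)) (O : OMat α) (𝓜 : Set (Set α)) :
    Prop :=
  ∀ F : Set α, F ∈ 𝓜 ↔ O.toMatroid.IsFlat F ∧ none ∈ O'.toMatroid.closure (some '' F)

/-- The vectors `(1, t, t², t³)`, `t = 0, …, 6`. -/
def v (a : Fin 7) (i : Fin 4) : ℝ := ((a : ℕ) : ℝ) ^ (i : ℕ)

/-- The same vectors, with the vector of `t = 0` repeated as the vector of the new element. -/
def v₁ (a : Option (Fin 7)) (i : Fin 4) : ℝ := v (a.getD 0) i

/-- The alternating oriented matroid of rank `4` on `7` elements. -/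
noncomputable def O : OMat (Fin 7) := ofVec v

/-- The extension by an element parallel to `0`. -/
noncomputable def O₁ : OMat (Option (Fin 7)) := ofVec v₁

/-- The linear dependencies of the vectors `v`. -/
noncomputable abbrev K : Submodule ℝ (Fin 7 → ℝ) := LinearMap.ker (Fintype.linearCombination ℝ v)

theorem mem_K {x : Fin 7 → ℝ} (hx : x ∈ K) (i : Fin 4) :
    ∑ a : Fin 7, x a * ((a : ℕ) : ℝ) ^ (i : ℕ) = 0 := by
  rw [LinearMap.mem_ker, Fintype.linearCombination_apply] at hx
  have := congrFun hx i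
  rw [Finset.sum_apply] at this
  simpa [v] using this

theorem moments {x : Fin 7 → ℝ} (hx : x ∈ K) :
    (x 0 + x 1 + x 2 + x 3 + x 4 + x 5 + x 6 = 0) ∧
    (x 1 + 2 * x 2 + 3 * x 3 + 4 * x 4 + 5 * x 5 + 6 * x 6 = 0) ∧
    (x 1 + 4 * x 2 + 9 * x 3 + 16 * x 4 + 25 * x 5 + 36 * x 6 = 0) ∧
    (x 1 + 8 * x 2 + 27 * x 3 + 64 * x 4 + 125 * x 5 + 216 * x 6 = 0) := by
  have h0 := mem_K hx 0
  have h1 := mem_K hx 1
  have h2 := mem_K hx 2
  have h3 := mem_K hx 3
  simp only [Fin.sum_univ_succ, Fin.sum_univ_zero] at h0 h1 h2 h3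
  norm_num [Fin.succ] at h0 h1 h2 h3
  have e0 : ((0 : Fin 7) : Fin 7) = ⟨0, by norm_num⟩ := rfl
  have e1 : ((1 : Fin 7) : Fin 7) = ⟨1, by norm_num⟩ := rfl
  have e2 : ((2 : Fin 7) : Fin 7) = ⟨2, by norm_num⟩ := rfl
  have e3 : ((3 : Fin 7) : Fin 7) = ⟨3, by norm_num⟩ := rfl
  have e4 : ((4 : Fin 7) : Fin 7) = ⟨4, by norm_num⟩ := rfl
  have e5 : ((5 : Fin 7) : Fin 7) = ⟨5, by norm_num⟩ := rfl
  have e6 : ((6 : Fin 7) : Fin 7) = ⟨6, by norm_num⟩ := rfl
  simp only [e0, e1, e2, e3, e4, e5, e6] at *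
  refine ⟨?_, ?_, ?_, ?_⟩ <;> linarith

/-- A linear dependency of the vectors is nonzero on at least five elements: it vanishes as soon
as it vanishes outside four elements. -/
theorem eq_zero_of_support {x : Fin 7 → ℝ} (hx : x ∈ K) {S : Finset (Fin 7)} (hS : S.card ≤ 4)
    (hs : Function.support x ⊆ (S : Set (Fin 7))) : x = 0 := by
  by_contra hne
  obtain ⟨e, he⟩ := Function.ne_iff.1 hne
  have hxe : x e ≠ 0 := he
  have heS : e ∈ S := by exact_mod_cast hs hxe
  have hcard : (S.erase e).card ≤ 3 := by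
    rw [Finset.card_erase_of_mem heS]; omega
  obtain ⟨T, hST, hT⟩ : ∃ T : Finset (Fin 7), S.erase e ⊆ T ∧ T.card = 3 ∧ e ∉ T := by
    have h1 : S.erase e ⊆ Finset.univ.erase e := Finset.erase_subset_erase _ (Finset.subset_univ _)
    obtain ⟨T, h2, h3, h4⟩ := Finset.exists_subsuperset_card_eq h1 hcard
      (by rw [Finset.card_erase_of_mem (Finset.mem_univ _)]; simp)
    exact ⟨T, h2, h4, fun h => (Finset.mem_erase.1 (h3 h)).1 rfl⟩
  obtain ⟨hT3, heT⟩ := hT
  obtain ⟨a, b, c, hab, hac, hbc, rfl⟩ := Finset.card_eq_three.1 hT3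
  have key : ∑ f : Fin 7, x f * ((((f : ℕ) : ℝ) - ((a : ℕ) : ℝ)) * (((f : ℕ) : ℝ) - ((b : ℕ) : ℝ)) *
      (((f : ℕ) : ℝ) - ((c : ℕ) : ℝ))) = 0 := by
    have h0 := mem_K hx 0
    have h1 := mem_K hx 1
    have h2 := mem_K hx 2
    have h3 := mem_K hx 3
    have : ∀ f : Fin 7, x f * ((((f : ℕ) : ℝ) - ((a : ℕ) : ℝ)) * (((f : ℕ) : ℝ) - ((b : ℕ) : ℝ)) *
      (((f : ℕ) : ℝ) - ((c : ℕ) : ℝ))) =
        x f * ((f : ℕ) : ℝ) ^ ((3 : Fin 4) : ℕ)
        - (((a : ℕ) : ℝ) + ((b : ℕ) : ℝ) + ((c : ℕ) : ℝ)) * (x f * ((f : ℕ) : ℝ) ^ ((2 : Fin 4) : ℕ))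
        + (((a : ℕ) : ℝ) * ((b : ℕ) : ℝ) + ((a : ℕ) : ℝ) * ((c : ℕ) : ℝ) +
            ((b : ℕ) : ℝ) * ((c : ℕ) : ℝ)) * (x f * ((f : ℕ) : ℝ) ^ ((1 : Fin 4) : ℕ))
        - (((a : ℕ) : ℝ) * ((b : ℕ) : ℝ) * ((c : ℕ) : ℝ)) * (x f * ((f : ℕ) : ℝ) ^ ((0 : Fin 4) : ℕ)) := by
      intro f
      have e0 : ((0 : Fin 4) : ℕ) = 0 := rfl
      have e1 : ((1 : Fin 4) : ℕ) = 1 := rfl
      have e2 : ((2 : Fin 4) : ℕ) = 2 := rfl
      have e3 : ((3 : Fin 4) : ℕ) = 3 := rfl
      rw [e0, e1, e2, e3]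
      ring
    rw [Finset.sum_congr rfl fun f _ => this f]
    rw [Finset.sum_sub_distrib, Finset.sum_add_distrib, Finset.sum_sub_distrib, ← Finset.mul_sum,
      ← Finset.mul_sum, ← Finset.mul_sum, h0, h1, h2, h3]
    ring
  rw [Finset.sum_eq_single e] at key
  · have hne : ∀ g : Fin 7, e ≠ g → (((e : ℕ) : ℝ) - ((g : ℕ) : ℝ)) ≠ 0 := by
      intro g hg h
      apply hg
      have : ((e : ℕ) : ℝ) = ((g : ℕ) : ℝ) := by linarith
      exact Fin.ext (by exact_mod_cast this)
    simp only [Finset.mem_insert, Finset.mem_singleton, not_or] at heT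
    exact (mul_ne_zero hxe (mul_ne_zero (mul_ne_zero (hne a heT.1) (hne b heT.2.1))
      (hne c heT.2.2))) key
  · intro f _ hfe
    by_cases hf : x f = 0
    · rw [hf, zero_mul]
    · have h1 : f ∈ S := by exact_mod_cast hs hf
      have h2 : f ∈ ({a, b, c} : Finset (Fin 7)) := hST (Finset.mem_erase.2 ⟨hfe, h1⟩)
      simp only [Finset.mem_insert, Finset.mem_singleton] at h2
      rcases h2 with rfl | rfl | rfl <;> ring
  · intro h
    exact absurd (Finset.mem_univ _) h

/-- Five vectors are linearly dependent. -/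
theorem exists_dep {S : Finset (Fin 7)} (hS : 5 ≤ S.card) :
    ∃ x ∈ K, x ≠ 0 ∧ Function.support x ⊆ (S : Set (Fin 7)) := by
  classical
  set L : (S → ℝ) →ₗ[ℝ] (Fin 4 → ℝ) := Fintype.linearCombination ℝ (fun a : S => v a) with hL
  have hker : LinearMap.ker L ≠ ⊥ := by
    apply LinearMap.ker_ne_bot_of_finrank_lt
    rw [Module.finrank_fintype_fun_eq_card, Module.finrank_fintype_fun_eq_card, Fintype.card_coe,
      Fintype.card_fin]
    omega
  obtain ⟨y, hy, hy0⟩ := Submodule.exists_mem_ne_zero_of_ne_bot hker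
  refine ⟨fun a => if h : a ∈ S then y ⟨a, h⟩ else 0, ?_, ?_, ?_⟩
  · rw [LinearMap.mem_ker, Fintype.linearCombination_apply] at hy ⊢
    rw [← hy]
    symm
    calc ∑ i : S, y i • v i = ∑ i : S, (if h : (i : Fin 7) ∈ S then y ⟨i, h⟩ else 0) • v i := by
          apply Finset.sum_congr rfl
          intro i _
          rw [dif_pos i.2]
      _ = ∑ i ∈ S, (if h : i ∈ S then y ⟨i, h⟩ else 0) • v i :=
          Finset.sum_coe_sort S (fun i => (if h : i ∈ S then y ⟨i, h⟩ else 0) • v i)
      _ = _ := by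
          apply Finset.sum_subset (Finset.subset_univ _)
          intro i _ hi
          rw [dif_neg hi, zero_smul]
  · intro h
    apply hy0
    ext ⟨a, ha⟩
    have := congrFun h a
    simpa [ha] using this
  · intro a ha
    by_contra h
    apply ha
    simp only [Finset.mem_coe] at h
    exact dif_neg h

/-- A set is independent in the underlying matroid if and only if it has at most four elements. -/
theorem indep_iff (S : Finset (Fin 7)) : O.toMatroid.Indep (S : Set (Fin 7)) ↔ S.card ≤ 4 := by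
  rw [OMat.toMatroid_indep]
  constructor
  · intro h
    by_contra hc
    obtain ⟨x, hx, hx0, hxs⟩ := exists_dep (S := S) (by omega)
    obtain ⟨e, he⟩ := Function.ne_iff.1 hx0
    obtain ⟨y, hy, hye, hys⟩ := exists_elem_of_mem K e x hx he
    exact h (sgn y) ⟨y, hy, rfl⟩ (by rw [support_sgn]; exact hys.trans hxs)
  · rintro h X ⟨x, hx, rfl⟩ hs
    rw [support_sgn] at hs
    exact hx.2.1 (eq_zero_of_support hx.1 h hs)

/-- Sets with at most three elements are flats. -/
theorem flat_of_card {S : Finset (Fin 7)} (hS : S.card ≤ 3) :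
    O.toMatroid.IsFlat (S : Set (Fin 7)) := by
  rw [Matroid.isFlat_iff_closure_eq]
  apply Subset.antisymm _ (O.toMatroid.subset_closure _ (Set.subset_univ _))
  intro e he
  by_contra heS
  obtain ⟨X, ⟨x, hx, rfl⟩, hXe, hXs⟩ := (OMat.mem_closure_iff _ heS).1 he
  rw [support_sgn] at hXs
  have h1 : x = 0 := by
    apply eq_zero_of_support hx.1 (S := insert e S)
    · exact (Finset.card_insert_le _ _).trans (by omega)
    · rw [Finset.coe_insert]; exact hXs
  exact hx.2.1 h1

/-- Flats with at least four elements are the whole ground set. -/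
theorem flat_eq_univ {F : Set (Fin 7)} (hF : O.toMatroid.IsFlat F) {S : Finset (Fin 7)}
    (hS : 4 ≤ S.card) (hSF : (S : Set (Fin 7)) ⊆ F) : F = Set.univ := by
  by_contra hne
  obtain ⟨e, he⟩ := (Set.ne_univ_iff_exists_notMem F).1 hne
  apply he
  rw [← hF.closure]
  rw [OMat.mem_closure_iff _ he]
  obtain ⟨T, hTS, hT⟩ := Finset.exists_subset_card_eq hS
  have heT : e ∉ T := fun h => he (hSF (by exact_mod_cast hTS h))
  obtain ⟨x, hx, hx0, hxs⟩ := exists_dep (S := insert e T)
    (by rw [Finset.card_insert_of_notMem heT]; omega)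
  have hxe : x e ≠ 0 := by
    intro h
    apply hx0
    apply eq_zero_of_support hx (S := T) (by omega)
    intro f hf
    have := hxs hf
    rw [Finset.coe_insert] at this
    rcases this with rfl | h'
    · exact absurd h hf
    · exact h'
  obtain ⟨y, hy, hye, hys⟩ := exists_elem_of_mem K e x hx hxe
  refine ⟨sgn y, ⟨y, hy, rfl⟩, sgn_ne_zero.2 hye, ?_⟩
  rw [support_sgn]
  refine (hys.trans hxs).trans ?_
  rw [Finset.coe_insert]
  exact Set.insert_subset_insert ((Finset.coe_subset.2 hTS).trans hSF)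

/-- The modular cut of the extension `O₁`: the flats containing `0`. -/
def cut : Set (Set (Fin 7)) := {F | O.toMatroid.IsFlat F ∧ 0 ∈ F}

/-- The three planes. -/
def H₁ : Finset (Fin 7) := {0, 1, 2}
/-- The three planes. -/
def H₂ : Finset (Fin 7) := {0, 3, 4}
/-- The three planes. -/
def H₃ : Finset (Fin 7) := {0, 5, 6}

/-- The modular cut `{012, 034, 056, E}`. -/
def cut' : Set (Set (Fin 7)) :=
  {(H₁ : Set (Fin 7)), (H₂ : Set (Fin 7)), (H₃ : Set (Fin 7)), Set.univ}

theorem flat_inter {F G : Set (Fin 7)} (hF : O.toMatroid.IsFlat F) (hG : O.toMatroid.IsFlat G) :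
    O.toMatroid.IsFlat (F ∩ G) := by
  rw [Matroid.isFlat_iff_closure_eq]
  apply Subset.antisymm _ (O.toMatroid.subset_closure _ (Set.subset_univ _))
  intro e he
  constructor
  · rw [← hF.closure]
    exact O.toMatroid.closure_subset_closure inter_subset_left he
  · rw [← hG.closure]
    exact O.toMatroid.closure_subset_closure inter_subset_right he

theorem isModularCut_cut : IsModularCut O.toMatroid cut where
  flat := fun _ hF => hF.1
  up := fun _ hF _ hG hFG => ⟨hG, hFG hF.2⟩
  inter := fun _ hF _ hG _ => ⟨flat_inter hF.1 hG.1, hF.2, hG.2⟩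

theorem eRk_le (X : Set (Fin 7)) : O.toMatroid.eRk X ≤ 4 := by
  obtain ⟨I, hI⟩ := O.toMatroid.exists_isBasis X (Set.subset_univ _)
  rw [← hI.encard_eq_eRk]
  have h1 := hI.indep
  classical
  have h2 : I = ((I.toFinite.toFinset : Finset (Fin 7)) : Set (Fin 7)) :=
    (Set.Finite.coe_toFinset _).symm
  rw [h2] at h1 ⊢
  rw [indep_iff] at h1
  rw [Set.encard_coe_eq_coe_finsetCard]
  exact_mod_cast h1

theorem eRk_eq {S : Finset (Fin 7)} (hS : S.card ≤ 4) :
    O.toMatroid.eRk (S : Set (Fin 7)) = S.card := by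
  rw [((indep_iff S).2 hS).eRk_eq_encard, Set.encard_coe_eq_coe_finsetCard]

theorem not_modular {S T : Finset (Fin 7)} (hS : S.card = 3) (hT : T.card = 3)
    (hST : (S ∩ T).card = 1) :
    ¬ (O.toMatroid.eRk (S : Set (Fin 7)) + O.toMatroid.eRk (T : Set (Fin 7)) =
      O.toMatroid.eRk ((S : Set (Fin 7)) ∪ (T : Set (Fin 7))) +
        O.toMatroid.eRk ((S : Set (Fin 7)) ∩ (T : Set (Fin 7)))) := by
  intro h
  have h1 := eRk_le ((S : Set (Fin 7)) ∪ (T : Set (Fin 7)))
  rw [← Finset.coe_inter, eRk_eq (S := S) (by omega), eRk_eq (S := T) (by omega),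
    eRk_eq (S := S ∩ T) (by omega), hS, hT, hST] at h
  have h2 : ((3 : ℕ) : ℕ∞) + ((3 : ℕ) : ℕ∞) ≤ 4 + ((1 : ℕ) : ℕ∞) := by
    rw [h]; exact add_le_add_left h1 _
  exact absurd h2 (by norm_cast)

theorem isModularCut_cut' : IsModularCut O.toMatroid cut' := by
  have hH : ∀ F ∈ cut', O.toMatroid.IsFlat F := by
    rintro F (rfl | rfl | rfl | rfl)
    · exact flat_of_card (by decide)
    · exact flat_of_card (by decide)
    · exact flat_of_card (by decide)
    · exact O.toMatroid.ground_isFlat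
  have hup : ∀ S : Finset (Fin 7), S.card = 3 → ∀ G, O.toMatroid.IsFlat G →
      (S : Set (Fin 7)) ⊆ G → G = S ∨ G = Set.univ := by
    intro S hS G hG hSG
    by_cases h : G ⊆ S
    · exact Or.inl (Subset.antisymm h hSG)
    · right
      obtain ⟨e, heG, heS⟩ := Set.not_subset.1 h
      have heS' : e ∉ S := by exact_mod_cast heS
      apply flat_eq_univ hG (S := insert e S)
      · rw [Finset.card_insert_of_notMem heS']; omega
      · rw [Finset.coe_insert]; exact Set.insert_subset heG hSG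
  refine ⟨hH, ?_, ?_⟩
  · rintro F (rfl | rfl | rfl | rfl) G hG hFG
    · rcases hup _ (by decide) G hG hFG with rfl | rfl <;> simp [cut']
    · rcases hup _ (by decide) G hG hFG with rfl | rfl <;> simp [cut']
    · rcases hup _ (by decide) G hG hFG with rfl | rfl <;> simp [cut']
    · rw [Set.univ_subset_iff.1 hFG]; simp [cut']
  · rintro F (rfl | rfl | rfl | rfl) G (rfl | rfl | rfl | rfl) h
    · simp [cut']
    · exact absurd h (not_modular (by decide) (by decide) (by decide))
    · exact absurd h (not_modular (by decide) (by decide) (by decide))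
    · simp [cut']
    · exact absurd h (not_modular (by decide) (by decide) (by decide))
    · simp [cut']
    · exact absurd h (not_modular (by decide) (by decide) (by decide))
    · simp [cut']
    · exact absurd h (not_modular (by decide) (by decide) (by decide))
    · exact absurd h (not_modular (by decide) (by decide) (by decide))
    · simp [cut']
    · simp [cut']
    · simp [cut']
    · simp [cut']
    · simp [cut']
    · simp [cut']

theorem cut'_subset : cut' ⊆ cut := by
  intro F hF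
  refine ⟨isModularCut_cut'.flat F hF, ?_⟩
  rcases hF with rfl | rfl | rfl | rfl
  · simp [H₁]
  · simp [H₂]
  · simp [H₃]
  · trivial

/-- The linear dependencies of the vectors `v₁`. -/
noncomputable abbrev K₁ : Submodule ℝ (Option (Fin 7) → ℝ) :=
  LinearMap.ker (Fintype.linearCombination ℝ v₁)

theorem mem_K₁ {x : Option (Fin 7) → ℝ} : x ∈ K₁ ↔
    (fun a : Fin 7 => x (some a) + if a = 0 then x none else 0) ∈ K := by
  rw [LinearMap.mem_ker, LinearMap.mem_ker, Fintype.linearCombination_apply,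
    Fintype.linearCombination_apply, Fintype.sum_option]
  have : ∑ i : Fin 7, (x (some i) + if i = 0 then x none else 0) • v i =
      x none • v₁ none + ∑ i : Fin 7, x (some i) • v₁ (some i) := by
    simp only [add_smul, Finset.sum_add_distrib, ite_smul, zero_smul, Finset.sum_ite_eq',
      Finset.mem_univ, if_true]
    rw [add_comm]
    rfl
  rw [this]

theorem ext_mem_K₁ {x : Fin 7 → ℝ} :
    (fun o : Option (Fin 7) => o.elim 0 x) ∈ K₁ ↔ x ∈ K := by
  rw [mem_K₁]
  simp

theorem support_ext {x : Fin 7 → ℝ} :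
    Function.support (fun o : Option (Fin 7) => o.elim 0 x) = some '' Function.support x := by
  ext o
  cases o <;> simp

theorem exists_of_zero {y : Option (Fin 7) → ℝ} (h : y none = 0) :
    ∃ x : Fin 7 → ℝ, y = fun o : Option (Fin 7) => o.elim 0 x := by
  refine ⟨fun a => y (some a), ?_⟩
  ext o
  cases o
  · exact h
  · rfl

theorem isElem_ext {x : Fin 7 → ℝ} :
    IsElem K₁ (fun o : Option (Fin 7) => o.elim 0 x) ↔ IsElem K x := by
  unfold IsElem
  rw [ext_mem_K₁]
  have h0 : ∀ z : Fin 7 → ℝ, (fun o : Option (Fin 7) => o.elim 0 z) = 0 ↔ z = 0 := by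
    intro z
    constructor
    · intro h
      ext a
      exact congrFun h (some a)
    · rintro rfl
      ext o
      cases o <;> rfl
  have hinj : Function.Injective (some : Fin 7 → Option (Fin 7)) := Option.some_injective _
  constructor
  · rintro ⟨h1, h2, h3⟩
    refine ⟨h1, fun h => h2 ((h0 x).2 h), fun z hz hz0 hzs => ?_⟩
    have := h3 (fun o : Option (Fin 7) => o.elim 0 z) (ext_mem_K₁.2 hz) (fun h => hz0 ((h0 z).1 h))
      (by rw [support_ext, support_ext]; exact Set.image_mono hzs)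
    rw [support_ext, support_ext] at this
    exact hinj.image_injective this
  · rintro ⟨h1, h2, h3⟩
    refine ⟨h1, fun h => h2 ((h0 x).1 h), fun y hy hy0 hys => ?_⟩
    have hn : y none = 0 := by
      by_contra h
      have := hys h
      simp at this
    obtain ⟨z, rfl⟩ := exists_of_zero hn
    rw [support_ext, support_ext] at hys ⊢
    rw [h3 z (ext_mem_K₁.1 hy) (fun h => hy0 ((h0 z).2 h))
      ((Set.image_subset_image_iff hinj).1 hys)]

theorem sgn_ext {x : Fin 7 → ℝ} : sgn (fun o : Option (Fin 7) => o.elim 0 x) =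
    fun o : Option (Fin 7) => o.elim 0 (sgn x) := by
  ext o
  cases o
  · simp [sgn]
  · rfl

theorem isExtension_O₁ : IsExtension O₁ O := by
  intro X
  constructor
  · rintro ⟨x, hx, rfl⟩
    exact ⟨_, isElem_ext.2 hx, sgn_ext⟩
  · rintro ⟨y, hy, h⟩
    have hn : y none = 0 := by
      by_contra h'
      have h1 := sgn_ne_zero.2 h'
      rw [h] at h1
      exact h1 rfl
    obtain ⟨x, rfl⟩ := exists_of_zero hn
    refine ⟨x, isElem_ext.1 hy, ?_⟩
    rw [sgn_ext] at h
    ext a
    exact congrFun h (some a)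

theorem corresponds_O₁ : Corresponds O₁ O cut := by
  intro F
  have hn : (none : Option (Fin 7)) ∉ some '' F := by simp
  constructor
  · rintro ⟨hF, h0⟩
    refine ⟨hF, ?_⟩
    rw [O₁, ofVec, mem_closure_ofSubspace hn]
    refine ⟨fun o => o.elim 1 (fun a => if a = 0 then -1 else 0), ?_, by simp, ?_⟩
    · rw [mem_K₁]
      convert K.zero_mem using 1
      ext a
      by_cases h : a = 0 <;> simp [h]
    · intro o ho
      cases o with
      | none => exact Or.inl rfl
      | some a =>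
        right
        by_cases h : a = 0
        · exact ⟨a, by rw [h]; exact h0, rfl⟩
        · exact absurd (by simp [h]) ho
  · rintro ⟨hF, hcl⟩
    refine ⟨hF, ?_⟩
    by_contra h0
    rw [O₁, ofVec, mem_closure_ofSubspace hn] at hcl
    obtain ⟨x, hx, hxn, hxs⟩ := hcl
    rw [mem_K₁] at hx
    apply h0
    rw [← hF.closure]
    rw [O, ofVec, mem_closure_ofSubspace h0]
    refine ⟨_, hx, ?_, ?_⟩
    · have : x (some 0) = 0 := by
        by_contra h
        rcases hxs h with h' | ⟨b, hb, hb'⟩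
        · exact absurd h' (by simp)
        · rw [Option.some.injEq] at hb'
          rw [hb'] at hb
          exact h0 hb
      simpa [this] using hxn
    · intro a ha
      by_cases h : a = 0
      · exact Or.inl h
      · right
        simp only [Function.mem_support, h, if_false, add_zero] at ha
        rcases hxs ha with h' | ⟨b, hb, hb'⟩
        · exact absurd h' (by simp)
        · rw [Option.some.injEq] at hb'
          rwa [← hb']

/-- Signs of a circuit of `O` with support inside `{0, 1, 2, 3, 4}`. -/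
theorem signs₁₂ {Z : Fin 7 → SignType} (hZ : Z ∈ O.circuits) (h5 : Z 5 = 0) (h6 : Z 6 = 0) :
    Z 1 ≠ 0 ∧ Z 2 = -Z 1 ∧ Z 3 = -Z 2 ∧ Z 4 = -Z 3 := by
  obtain ⟨x, hx, rfl⟩ := hZ
  have h5' : x 5 = 0 := by
    by_contra h
    exact (sgn_ne_zero.2 h) h5
  have h6' : x 6 = 0 := by
    by_contra h
    exact (sgn_ne_zero.2 h) h6
  obtain ⟨m0, m1, m2, m3⟩ := moments hx.1
  rw [h5', h6'] at m0 m1 m2 m3
  have e1 : x 1 = (-4) * x 0 := by linarith
  have e2 : x 2 = 6 * x 0 := by linarith
  have e3 : x 3 = (-4) * x 0 := by linarith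
  have e4 : x 4 = 1 * x 0 := by linarith
  have hx0 : x 0 ≠ 0 := by
    intro h
    apply hx.2.1
    ext a
    fin_cases a <;> simp_all
  unfold sgn
  rw [e1, e2, e3, e4]
  simp only [sign_mul, sign_pos (show (0 : ℝ) < 6 by norm_num),
    sign_neg (show (-4 : ℝ) < 0 by norm_num), sign_pos (show (0 : ℝ) < 1 by norm_num)]
  have := sign_ne_zero.2 hx0
  revert this
  generalize SignType.sign (x 0) = s
  revert s; decide

/-- Signs of a circuit of `O` with support inside `{0, 1, 2, 5, 6}`. -/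
theorem signs₁₃ {Z : Fin 7 → SignType} (hZ : Z ∈ O.circuits) (h3 : Z 3 = 0) (h4 : Z 4 = 0) :
    Z 1 ≠ 0 ∧ Z 2 = -Z 1 ∧ Z 5 = -Z 2 ∧ Z 6 = -Z 5 := by
  obtain ⟨x, hx, rfl⟩ := hZ
  have h3' : x 3 = 0 := by
    by_contra h
    exact (sgn_ne_zero.2 h) h3
  have h4' : x 4 = 0 := by
    by_contra h
    exact (sgn_ne_zero.2 h) h4
  obtain ⟨m0, m1, m2, m3⟩ := moments hx.1
  rw [h3', h4'] at m0 m1 m2 m3
  have e1 : x 1 = (-3) * x 0 := by linarith
  have e2 : x 2 = (5 / 2) * x 0 := by linarith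
  have e5 : x 5 = (-1) * x 0 := by linarith
  have e6 : x 6 = (1 / 2) * x 0 := by linarith
  have hx0 : x 0 ≠ 0 := by
    intro h
    apply hx.2.1
    ext a
    fin_cases a <;> simp_all
  unfold sgn
  rw [e1, e2, e5, e6]
  simp only [sign_mul, sign_pos (show (0 : ℝ) < 5 / 2 by norm_num),
    sign_neg (show (-3 : ℝ) < 0 by norm_num), sign_pos (show (0 : ℝ) < 1 / 2 by norm_num),
    sign_neg (show (-1 : ℝ) < 0 by norm_num)]
  have := sign_ne_zero.2 hx0
  revert this
  generalize SignType.sign (x 0) = s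
  revert s; decide

/-- Signs of a circuit of `O` with support inside `{0, 3, 4, 5, 6}`. -/
theorem signs₂₃ {Z : Fin 7 → SignType} (hZ : Z ∈ O.circuits) (h1 : Z 1 = 0) (h2 : Z 2 = 0) :
    Z 3 ≠ 0 ∧ Z 4 = -Z 3 ∧ Z 5 = -Z 4 ∧ Z 6 = -Z 5 := by
  obtain ⟨x, hx, rfl⟩ := hZ
  have h1' : x 1 = 0 := by
    by_contra h
    exact (sgn_ne_zero.2 h) h1
  have h2' : x 2 = 0 := by
    by_contra h
    exact (sgn_ne_zero.2 h) h2
  obtain ⟨m0, m1, m2, m3⟩ := moments hx.1
  rw [h1', h2'] at m1 m2 m3
  rw [h1', h2'] at m0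
  have e3 : x 3 = (-20) * x 0 := by linarith
  have e4 : x 4 = 45 * x 0 := by linarith
  have e5 : x 5 = (-36) * x 0 := by linarith
  have e6 : x 6 = 10 * x 0 := by linarith
  have hx0 : x 0 ≠ 0 := by
    intro h
    apply hx.2.1
    ext a
    fin_cases a <;> simp_all
  unfold sgn
  rw [e3, e4, e5, e6]
  simp only [sign_mul, sign_pos (show (0 : ℝ) < 45 by norm_num),
    sign_neg (show (-20 : ℝ) < 0 by norm_num), sign_pos (show (0 : ℝ) < 10 by norm_num),
    sign_neg (show (-36 : ℝ) < 0 by norm_num)]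
  have := sign_ne_zero.2 hx0
  revert this
  generalize SignType.sign (x 0) = s
  revert s; decide

/-- If `O₂` corresponds to `cut'` and `H` is one of the three planes, then some circuit of `O₂`
lies in `H ∪ p` and has a `+` at `p`. -/
theorem exists_circuit {O₂ : OMat (Option (Fin 7))} (hc : Corresponds O₂ O cut')
    {H : Finset (Fin 7)} (hH : (H : Set (Fin 7)) ∈ cut') :
    ∃ X ∈ O₂.circuits, X none = 1 ∧ ∀ a : Fin 7, a ∉ H → X (some a) = 0 := by
  have h1 := ((hc H).1 hH).2
  rw [OMat.mem_closure_iff _ (by simp)] at h1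
  obtain ⟨X, hX, hXn, hXs⟩ := h1
  have h2 : ∀ a : Fin 7, a ∉ H → X (some a) = 0 := by
    intro a ha
    by_contra h
    rcases hXs h with h' | ⟨b, hb, hb'⟩
    · exact absurd h' (by simp)
    · rw [Option.some.injEq] at hb'
      rw [hb'] at hb
      exact ha (by exact_mod_cast hb)
  rcases SignType.trichotomy (X none) with h | h | h
  · refine ⟨-X, O₂.neg_mem X hX, by rw [Pi.neg_apply, h]; rfl, fun a ha => ?_⟩
    rw [Pi.neg_apply, h2 a ha]; rfl
  · exact absurd h hXn
  · exact ⟨X, hX, h, h2⟩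

/-- Elimination of the new element between the circuits in two of the planes. -/
theorem eliminate {O₂ : OMat (Option (Fin 7))} (he : IsExtension O₂ O)
    (hc : Corresponds O₂ O cut') {X Y : Option (Fin 7) → SignType} (hX : X ∈ O₂.circuits)
    (hY : Y ∈ O₂.circuits) (hXn : X none = 1) (hYn : Y none = 1)
    (h0 : ∀ a : Fin 7, a ≠ 0 → X (some a) = 0 ∨ Y (some a) = 0) :
    ∃ Z ∈ O.circuits, ∀ a : Fin 7, Z a ≠ 0 → Z a = X (some a) ∨ Z a = -Y (some a) := by
  have hne : X ≠ -(-Y) := by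
    intro h
    have h1 : X = Y := by
      rw [h]
      ext o
      simp
    have h2 : ∀ a : Fin 7, a ≠ 0 → X (some a) = 0 := by
      intro a ha
      rcases h0 a ha with h' | h'
      · exact h'
      · rw [h1]; exact h'
    have h3 : (({0} : Finset (Fin 7)) : Set (Fin 7)) ∈ cut' := by
      rw [hc]
      refine ⟨flat_of_card (by decide), ?_⟩
      rw [OMat.mem_closure_iff _ (by simp)]
      refine ⟨X, hX, by rw [hXn]; decide, ?_⟩
      intro o ho
      cases o with
      | none => exact Or.inl rfl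
      | some a =>
        right
        refine ⟨a, ?_, rfl⟩
        by_contra ha
        exact ho (h2 a (by simpa using ha))
    have h4 : ∀ S : Finset (Fin 7), (({0} : Finset (Fin 7)) : Set (Fin 7)) = S →
        ({0} : Finset (Fin 7)) = S := fun S hS => by exact_mod_cast hS
    rcases h3 with h | h | h | h
    · exact absurd (h4 _ h) (by decide)
    · exact absurd (h4 _ h) (by decide)
    · exact absurd (h4 _ h) (by decide)
    · have : (1 : Fin 7) ∈ (({0} : Finset (Fin 7)) : Set (Fin 7)) := by rw [h]; trivial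
      simp at this
  obtain ⟨Z, hZ, hZn, hZf⟩ := O₂.elim X hX (-Y) (O₂.neg_mem Y hY) hne none
    (by rw [hXn]; decide) (by rw [Pi.neg_apply, hXn, hYn])
  refine ⟨fun a => Z (some a), ?_, fun a ha => hZf (some a) ha⟩
  rw [he]
  convert hZ using 1
  ext o
  cases o
  · exact hZn.symm
  · rfl

/-- No single-element extension of `O` corresponds to `cut'`. -/
theorem not_corresponds {O₂ : OMat (Option (Fin 7))} (he : IsExtension O₂ O) :
    ¬ Corresponds O₂ O cut' := by
  intro hc
  obtain ⟨X, hX, hXn, hX0⟩ := exists_circuit hc (H := H₁) (by simp [cut'])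
  obtain ⟨Y, hY, hYn, hY0⟩ := exists_circuit hc (H := H₂) (by simp [cut'])
  obtain ⟨W, hW, hWn, hW0⟩ := exists_circuit hc (H := H₃) (by simp [cut'])
  have d1 : ∀ a : Fin 7, a ≠ 0 → a ∉ H₁ ∨ a ∉ H₂ := by decide
  have d2 : ∀ a : Fin 7, a ≠ 0 → a ∉ H₁ ∨ a ∉ H₃ := by decide
  have d3 : ∀ a : Fin 7, a ≠ 0 → a ∉ H₂ ∨ a ∉ H₃ := by decide
  obtain ⟨P, hP, hPf⟩ := eliminate he hc hX hY hXn hYn
    (fun a ha => (d1 a ha).imp (hX0 a) (hY0 a))
  obtain ⟨Q, hQ, hQf⟩ := eliminate he hc hX hW hXn hWn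
    (fun a ha => (d2 a ha).imp (hX0 a) (hW0 a))
  obtain ⟨R, hR, hRf⟩ := eliminate he hc hY hW hYn hWn
    (fun a ha => (d3 a ha).imp (hY0 a) (hW0 a))
  have z : ∀ {T : Fin 7 → SignType} {A B : Option (Fin 7) → SignType} {a : Fin 7},
      (T a ≠ 0 → T a = A (some a) ∨ T a = -B (some a)) → A (some a) = 0 → B (some a) = 0 →
      T a = 0 := by
    intro T A B a h hA hB
    by_contra hne
    rcases h hne with h' | h'
    · rw [hA] at h'; exact hne h'
    · rw [hB] at h'; exact hne (h'.trans rfl)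
  have P5 : P 5 = 0 := z (hPf 5) (hX0 5 (by decide)) (hY0 5 (by decide))
  have P6 : P 6 = 0 := z (hPf 6) (hX0 6 (by decide)) (hY0 6 (by decide))
  have Q3 : Q 3 = 0 := z (hQf 3) (hX0 3 (by decide)) (hW0 3 (by decide))
  have Q4 : Q 4 = 0 := z (hQf 4) (hX0 4 (by decide)) (hW0 4 (by decide))
  have R1 : R 1 = 0 := z (hRf 1) (hY0 1 (by decide)) (hW0 1 (by decide))
  have R2 : R 2 = 0 := z (hRf 2) (hY0 2 (by decide)) (hW0 2 (by decide))
  obtain ⟨p1, p2, p3, p4⟩ := signs₁₂ hP P5 P6
  obtain ⟨q1, q2, q5, q6⟩ := signs₁₃ hQ Q3 Q4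
  obtain ⟨r3, r4, r5, r6⟩ := signs₂₃ hR R1 R2
  have g1 : ∀ {T : Fin 7 → SignType} {A B : Option (Fin 7) → SignType} {a : Fin 7},
      (T a ≠ 0 → T a = A (some a) ∨ T a = -B (some a)) → T a ≠ 0 → B (some a) = 0 →
      T a = A (some a) := by
    intro T A B a h hT hB
    rcases h hT with h' | h'
    · exact h'
    · rw [hB] at h'; exact absurd (h'.trans rfl) hT
  have g2 : ∀ {T : Fin 7 → SignType} {A B : Option (Fin 7) → SignType} {a : Fin 7},
      (T a ≠ 0 → T a = A (some a) ∨ T a = -B (some a)) → T a ≠ 0 → A (some a) = 0 →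
      T a = -B (some a) := by
    intro T A B a h hT hA
    rcases h hT with h' | h'
    · rw [hA] at h'; exact absurd h' hT
    · exact h'
  have n : ∀ {s t : SignType}, s ≠ 0 → t = -s → t ≠ 0 := by decide
  have P2 := n p1 p2
  have P3 := n P2 p3
  have Q2 := n q1 q2
  have Q5 := n Q2 q5
  have R4 := n r3 r4
  have R5 := n R4 r5
  have a2 := g1 (hPf 2) P2 (hY0 2 (by decide))
  have a3 := g2 (hPf 3) P3 (hX0 3 (by decide))
  have b2 := g1 (hQf 2) Q2 (hW0 2 (by decide))
  have b5 := g2 (hQf 5) Q5 (hX0 5 (by decide))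
  have c3 := g1 (hRf 3) r3 (hW0 3 (by decide))
  have c5 := g2 (hRf 5) R5 (hY0 5 (by decide))
  have e1 : P 1 = Q 1 := by
    have : P 2 = Q 2 := a2.trans b2.symm
    rw [p2, q2] at this
    exact neg_injective this
  have e2 : R 3 = -P 1 := by
    have h : P 3 = -R 3 := by rw [a3, c3]
    rw [p3, p2, neg_neg] at h
    rw [h, neg_neg]
  have e3 : R 3 = P 1 := by
    have h : Q 5 = R 5 := b5.trans c5.symm
    rw [q5, q2, r5, r4, neg_neg, neg_neg] at h
    rw [e1, h]
  have e4 : P 1 = -P 1 := e3.symm.trans e2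
  revert p1 e4
  generalize P 1 = s
  revert s; decide

/-- **Theorem.** There are an oriented matroid `O`, a single-element extension `O₁` of `O`, the
modular cut `𝓜` to which `O₁` corresponds, and a modular cut `𝓜' ⊆ 𝓜` such that no single-element
extension of `O` corresponds to `𝓜'`. -/
theorem result : ∃ (O : OMat (Fin 7)) (O₁ : OMat (Option (Fin 7))) (𝓜 𝓜' : Set (Set (Fin 7))),
    IsExtension O₁ O ∧ IsModularCut O.toMatroid 𝓜 ∧ Corresponds O₁ O 𝓜 ∧
    IsModularCut O.toMatroid 𝓜' ∧ 𝓜' ⊆ 𝓜 ∧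
    ∀ O₂ : OMat (Option (Fin 7)), IsExtension O₂ O → ¬ Corresponds O₂ O 𝓜' :=
  ⟨O, O₁, cut, cut', isExtension_O₁, isModularCut_cut, corresponds_O₁, isModularCut_cut',
    cut'_subset, fun _ h => not_corresponds h⟩

end Pool.Agent.Results.MP_6e3918_co.SubModularCut
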